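import Pool.Agent.N604.MW.Stm3
import Pool.Agent.N624.MW_Circ

/-! Project PD (helper604), task DCIRC (helper712): the circle method with an exceptional part of the
minor arcs. Adapted from `Pool.Agent.N624.MW_Circ` (helper624). -/

set_option autoImplicit false

open Finset MeasureTheory

namespace Pool.Agent.N712.PD

open Pool.Agent.N604.MW Pool.Agent.N624.MWCirc

lemma icc_int {x r K : ℝ} (hr : 0 ≤ r) (hK : 0 ≤ K) :
    ∫ α, (Set.Icc (x - r) (x + r)).indicator (fun _ => K) α ∂mu ≤ 2 * r * K := by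
  rw [integral_indicator measurableSet_Icc, integral_const, smul_eq_mul]
  refine mul_le_mul_of_nonneg_right ?_ hK
  unfold mu
  rw [Measure.real, Measure.restrict_apply_univ]
  refine (ENNReal.toReal_mono (b := volume (Set.Icc (x - r) (x + r))) ?_ ?_).trans ?_
  · simp
  · exact Measure.restrict_apply_le _ _
  · rw [Real.volume_Icc, ENNReal.toReal_ofReal (by linarith)]
    linarith

/-- the exceptional part -/
noncomputable def exc (J : Finset ℝ) (r K : ℝ) (α : ℝ) : ℝ :=
  ∑ x ∈ J, (Set.Icc (x - r) (x + r)).indicator (fun _ => K) α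

lemma exc_nonneg {J : Finset ℝ} {r K : ℝ} (hK : 0 ≤ K) (α : ℝ) : 0 ≤ exc J r K α :=
  Finset.sum_nonneg fun _ _ => Set.indicator_nonneg (fun _ _ => hK) _

lemma exc_le {J : Finset ℝ} {r K : ℝ} (hK : 0 ≤ K) {α : ℝ} (h : ∃ x ∈ J, |α - x| ≤ r) :
    K ≤ exc J r K α := by
  obtain ⟨x, hx, h1⟩ := h
  have h2 : α ∈ Set.Icc (x - r) (x + r) := by
    rw [abs_le] at h1
    exact ⟨by linarith [h1.1], by linarith [h1.2]⟩
  have h3 := Finset.single_le_sum
    (f := fun x => (Set.Icc (x - r) (x + r)).indicator (fun _ => K) α)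
    (fun y _ => Set.indicator_nonneg (fun _ _ => hK) α) hx
  refine le_trans (le_of_eq ?_) h3
  exact (Set.indicator_of_mem h2 (fun _ => K)).symm

lemma exc_integ (J : Finset ℝ) (r K : ℝ) : Integrable (exc J r K) mu :=
  integrable_finsetSum _ fun _ _ => (integrable_const K).indicator measurableSet_Icc

lemma exc_int {J : Finset ℝ} {r K : ℝ} (hr : 0 ≤ r) (hK : 0 ≤ K) :
    ∫ α, exc J r K α ∂mu ≤ 2 * r * J.card * K := by
  unfold exc
  rw [integral_finsetSum _ fun _ _ => (integrable_const K).indicator measurableSet_Icc]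
  calc ∑ x ∈ J, ∫ α, (Set.Icc (x - r) (x + r)).indicator (fun _ => K) α ∂mu
      ≤ ∑ _x ∈ J, 2 * r * K := Finset.sum_le_sum fun x _ => icc_int hr hK
    _ = 2 * r * J.card * K := by
        rw [Finset.sum_const, nsmul_eq_mul]
        ring

section

variable {Ω Λ : Type}

lemma r3 (P P' : Finset Ω) (L : Finset Λ) (v v' : Ω → ℤ) (p p' : Ω → ℝ) (a : Λ → ℤ) (w : Λ → ℝ)
    (N : ℤ) : ∫ α, (U P v p α * U P' v' p' α * U L a w α) * e (-(α * N)) ∂mu =
      (R3 P P' L v v' p p' a w N : ℂ) := by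
  have h : ∀ α, U P v p α * U P' v' p' α * U L a w α =
      ∑ x ∈ P ×ˢ (P' ×ˢ L), ((p x.1 * p' x.2.1 * w x.2.2 : ℝ) : ℂ) *
        e (α * ((v x.1 + v' x.2.1 + a x.2.2 : ℤ) : ℝ)) := by
    intro α
    rw [mul_assoc]
    unfold U
    rw [Finset.sum_mul_sum P' L, Finset.sum_mul_sum]
    rw [Finset.sum_product]
    refine Finset.sum_congr rfl fun i _ => ?_
    rw [Finset.sum_product]
    refine Finset.sum_congr rfl fun j _ => ?_
    rw [Finset.mul_sum]
    refine Finset.sum_congr rfl fun l _ => ?_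
    push_cast
    rw [mul_add, mul_add, e_add, e_add]
    ring
  simp only [h]
  have := coef (P ×ˢ (P' ×ˢ L)) (fun x => ((p x.1 * p' x.2.1 * w x.2.2 : ℝ) : ℂ))
    (fun x => v x.1 + v' x.2.1 + a x.2.2) N
  rw [this, Finset.sum_product]
  unfold R3
  push_cast
  refine Finset.sum_congr rfl fun i _ => ?_
  rw [Finset.sum_product]
  refine Finset.sum_congr rfl fun j _ => Finset.sum_congr rfl fun l _ => ?_
  dsimp only
  split_ifs <;> simp

end

theorem dcirc2 : S_DCIRC2 := by
  intro Ω Λ P P' L v v' p p' a w W η τ υ r J hp hp' hw hW hη hτ hυ hr hT N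
  set A : ℝ := ∑ ω ∈ P, p ω with hA
  set A' : ℝ := ∑ ω ∈ P', p' ω with hA'
  set B : ℝ := ∑ l ∈ L, w l with hB
  have hA0 : 0 ≤ A := Finset.sum_nonneg fun ω _ => hp ω
  have hA'0 : 0 ≤ A' := Finset.sum_nonneg fun ω _ => hp' ω
  have hB0 : 0 ≤ B := Finset.sum_nonneg fun l _ => hw l
  have hW0 : (0 : ℝ) < W := by exact_mod_cast hW
  set K : ℝ := A * A' * B * (2 * Real.pi * η * W) with hK
  set K' : ℝ := υ * υ * B * 2 with hK'
  have hpi := Real.pi_pos
  have hK0 : 0 ≤ K := by positivity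
  have hK'0 : 0 ≤ K' := by positivity
  have hcF : Continuous fun α => U P v p α * U P' v' p' α * U L a w α :=
    ((cont_U P v p).mul (cont_U P' v' p')).mul (cont_U L a w)
  have h1 := dev hcF (R3 P P' L v v' p p' a w) (r3 P P' L v v' p p' a w) hW N
  have i1 : Integrable (fun α => (Set.Icc (-η) η).indicator (fun _ => K) α) mu :=
    (integrable_const K).indicator measurableSet_Icc
  have i2 : Integrable (fun α => τ * (‖U P v p α‖ ^ 2 + ‖U P' v' p' α‖ ^ 2)) mu :=
    integR (continuous_const.mul (((cont_U P v p).norm.pow 2).add ((cont_U P' v' p').norm.pow 2)))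
  have i3 : Integrable (fun α => exc J r K' α) mu := exc_integ J r K'
  have i12 : Integrable (fun α => (Set.Icc (-η) η).indicator (fun _ => K) α +
      τ * (‖U P v p α‖ ^ 2 + ‖U P' v' p' α‖ ^ 2)) mu := i1.add i2
  have h2 : ‖∫ α, U P v p α * U P' v' p' α * U L a w α * Dl W α * e (-(α * N)) ∂mu‖ ≤
      ∫ α, ((Set.Icc (-η) η).indicator (fun _ => K) α +
        τ * (‖U P v p α‖ ^ 2 + ‖U P' v' p' α‖ ^ 2) + exc J r K' α) ∂mu := by
    refine norm_integral_le_of_norm_le ((i1.add i2).add i3) ?_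
    filter_upwards [mem_half] with α hα
    rw [norm_mul, norm_mul, norm_mul, norm_mul, norm_e, mul_one]
    have hU := norm_U P v p hp α
    have hU' := norm_U P' v' p' hp' α
    have hV := norm_U L a w hw α
    have hU0 := norm_nonneg (U P v p α)
    have hU'0 := norm_nonneg (U P' v' p' α)
    have hV0 := norm_nonneg (U L a w α)
    have hD0 := norm_nonneg (Dl W α)
    have hE0 := exc_nonneg (J := J) (r := r) hK'0 α
    by_cases hs : |α| ≤ η
    · have hm : α ∈ Set.Icc (-η) η := abs_le.mp hs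
      rw [Set.indicator_of_mem hm]
      have hD := Dl_small hW α
      have h3 : ‖Dl W α‖ ≤ 2 * Real.pi * η * W := by
        refine hD.trans ?_
        gcongr
      have h4 : ‖U P v p α‖ * ‖U P' v' p' α‖ * ‖U L a w α‖ * ‖Dl W α‖ ≤ K := by
        rw [hK]
        gcongr
      have h5 : 0 ≤ τ * (‖U P v p α‖ ^ 2 + ‖U P' v' p' α‖ ^ 2) := by positivity
      linarith
    · have hm : α ∉ Set.Icc (-η) η := fun h => hs (abs_le.mpr h)
      rw [Set.indicator_of_notMem hm, zero_add]
      push Not at hs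
      have hD := Dl_two hW α
      rcases hT α hs.le hα with hT' | ⟨hx, hu, hu'⟩
      · have hT2 : ‖U L a w α‖ ≤ τ := hT'
        have h5 : ‖U P v p α‖ * ‖U P' v' p' α‖ * ‖U L a w α‖ * ‖Dl W α‖
            ≤ ‖U P v p α‖ * ‖U P' v' p' α‖ * τ * 2 := by gcongr
        have h6 : ‖U P v p α‖ * ‖U P' v' p' α‖ * τ * 2 ≤
            τ * (‖U P v p α‖ ^ 2 + ‖U P' v' p' α‖ ^ 2) := by
          have := mul_nonneg hτ (sq_nonneg (‖U P v p α‖ - ‖U P' v' p' α‖))
          nlinarith
        linarith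
      · have hu2 : ‖U P v p α‖ ≤ υ := hu
        have hu2' : ‖U P' v' p' α‖ ≤ υ := hu'
        have h5 : ‖U P v p α‖ * ‖U P' v' p' α‖ * ‖U L a w α‖ * ‖Dl W α‖ ≤ υ * υ * B * 2 := by
          gcongr
        have h6 := exc_le hK'0 hx
        have h7 : 0 ≤ τ * (‖U P v p α‖ ^ 2 + ‖U P' v' p' α‖ ^ 2) := by positivity
        linarith
  rw [← h1, Complex.norm_real, Real.norm_eq_abs] at h2
  refine h2.trans ?_
  rw [integral_add i12 i3, integral_add i1 i2, integral_const_mul, integral_add, U_sq,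
    U_sq]
  · have h6 := small_int hη hK0
    have h6' := exc_int (J := J) hr hK'0
    have h7 : 2 * η * K ≤ 16 * W * η ^ 2 * A * A' * B := by
      rw [hK]
      have : 2 * η * (A * A' * B * (2 * Real.pi * η * W)) =
          Real.pi * (4 * W * η ^ 2 * A * A' * B) := by ring
      rw [this]
      have h8 : Real.pi ≤ 4 := Real.pi_le_four
      have h9 : 0 ≤ 4 * W * η ^ 2 * A * A' * B := by positivity
      nlinarith
    have h8 : 2 * r * J.card * K' = 4 * r * J.card * υ ^ 2 * B := by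
      rw [hK']; ring
    linarith
  · exact integR ((cont_U P v p).norm.pow 2)
  · exact integR ((cont_U P' v' p').norm.pow 2)

theorem dcirc1 : S_DCIRC1 := by
  intro Ω Λ P L v p a w W η τ υ r ρ J hp hw hW hη hτ hυ hr hρ hT S hS
  set A : ℝ := ∑ ω ∈ P, p ω with hA
  set B : ℝ := ∑ l ∈ L, w l with hB
  have hA0 : 0 ≤ A := Finset.sum_nonneg fun ω _ => hp ω
  have hB0 : 0 ≤ B := Finset.sum_nonneg fun l _ => hw l
  have hW0 : (0 : ℝ) < W := by exact_mod_cast hW
  set K : ℝ := A * B * (2 * Real.pi * η * W) with hK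
  set K' : ℝ := 2 * (υ * B) ^ 2 with hK'
  have hpi := Real.pi_pos
  have hK0 : 0 ≤ K := by positivity
  have hK'0 : 0 ≤ K' := by positivity
  have hcF : Continuous fun α => U P v p α * U L a w α := (cont_U P v p).mul (cont_U L a w)
  set G : ℝ → ℂ := fun α => U P v p α * U L a w α * Dl W α with hG
  have hcG : Continuous G := hcF.mul (cont_Dl W)
  set G1 : ℝ → ℂ := (Set.Icc (-η) η).indicator G with hG1
  set G2 : ℝ → ℂ := ((Set.Icc (-η) η)ᶜ).indicator G with hG2
  have hiG1 : Integrable G1 mu := (integ hcG).indicator measurableSet_Icc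
  have hiG2 : Integrable G2 mu := (integ hcG).indicator measurableSet_Icc.compl
  have hmul : ∀ {H : ℝ → ℂ}, Integrable H mu → ∀ {Q : ℝ → ℂ}, Continuous Q → ∀ {C : ℝ},
      (∀ α, ‖Q α‖ ≤ C) → Integrable (fun α => H α * Q α) mu := by
    intro H hH Q hQ C hC
    exact hH.mul_bdd hQ.aestronglyMeasurable (Filter.Eventually.of_forall hC)
  have hsum : ∀ α, G α = G1 α + G2 α := by
    intro α
    rw [hG1, hG2]
    exact (Set.indicator_self_add_compl_apply _ _ _).symm
  have hb1 : ∀ N : ℤ, ‖∫ α, G1 α * e (-(α * N)) ∂mu‖ ≤ 16 * W * η ^ 2 * A * B := by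
    intro N
    have : ‖∫ α, G1 α * e (-(α * N)) ∂mu‖ ≤
        ∫ α, (Set.Icc (-η) η).indicator (fun _ => K) α ∂mu := by
      refine norm_integral_le_of_norm_le ?_ ?_
      · exact (integrable_const K).indicator measurableSet_Icc
      · refine Filter.Eventually.of_forall fun α => ?_
        rw [norm_mul, norm_e, mul_one, hG1]
        by_cases hm : α ∈ Set.Icc (-η) η
        · rw [Set.indicator_of_mem hm, Set.indicator_of_mem hm]
          have hs : |α| ≤ η := abs_le.mpr hm
          have hD := Dl_small hW α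
          have h3 : ‖Dl W α‖ ≤ 2 * Real.pi * η * W := by
            refine hD.trans ?_
            gcongr
          rw [hG]
          dsimp only
          rw [norm_mul, norm_mul, hK]
          have hU := norm_U P v p hp α
          have hV := norm_U L a w hw α
          have hD0 := norm_nonneg (Dl W α)
          gcongr
        · rw [Set.indicator_of_notMem hm, Set.indicator_of_notMem hm, norm_zero]
    refine this.trans ((small_int hη hK0).trans ?_)
    rw [hK]
    have : 2 * η * (A * B * (2 * Real.pi * η * W)) = Real.pi * (4 * W * η ^ 2 * A * B) := by ring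
    rw [this]
    have h8 : Real.pi ≤ 4 := Real.pi_le_four
    have h9 : 0 ≤ 4 * W * η ^ 2 * A * B := by positivity
    nlinarith
  set c : ℤ → ℂ := fun N => ∫ α, G2 α * e (-(α * N)) ∂mu with hc
  have hlow : ∀ N ∈ S, ρ ≤ ‖c N‖ := by
    intro N hN
    have h1 := dev hcF (R1 P L v p a w) (r1 P L v p a w) hW N
    have h2 : ∫ α, U P v p α * U L a w α * Dl W α * e (-(α * N)) ∂mu =
        (∫ α, G1 α * e (-(α * N)) ∂mu) + c N := by
      rw [hc]
      dsimp only
      rw [← integral_add]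
      · refine integral_congr_ae (Filter.Eventually.of_forall fun α => ?_)
        dsimp only
        rw [← add_mul, ← hsum α]
      · exact hmul hiG1 (cont_eN N) (C := 1) (fun α => (norm_e _).le)
      · exact hmul hiG2 (cont_eN N) (C := 1) (fun α => (norm_e _).le)
    rw [h2] at h1
    have h3 : |R1 P L v p a w N - (∑ h ∈ range W, R1 P L v p a w (N + h)) / W| ≤
        ‖∫ α, G1 α * e (-(α * N)) ∂mu‖ + ‖c N‖ := by
      rw [← Real.norm_eq_abs, ← Complex.norm_real, h1]
      exact norm_add_le _ _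
    have h4 := hS N hN
    have h5 := hb1 N
    linarith
  -- the dual sum
  set Q : ℝ → ℂ := fun α => ∑ N ∈ S, c N * e (α * N) with hQ
  have hcQ : Continuous Q := cont_trig S c fun N => N
  have hQ2 : ∫ α, ‖Q α‖ ^ 2 ∂mu = ∑ N ∈ S, ‖c N‖ ^ 2 := by
    have h := l2 S c (fun N => N)
    have h2 : (∑ i ∈ S, ∑ j ∈ S, if i = j then c i * (starRingEnd ℂ) (c j) else 0) =
        ((∑ N ∈ S, ‖c N‖ ^ 2 : ℝ) : ℂ) := by
      push_cast
      refine Finset.sum_congr rfl fun i hi => ?_
      rw [Finset.sum_ite_eq, if_pos hi, Complex.mul_conj']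
    rw [h2] at h
    exact_mod_cast h
  have hdual : ∫ α, G2 α * (starRingEnd ℂ) (Q α) ∂mu = ((∑ N ∈ S, ‖c N‖ ^ 2 : ℝ) : ℂ) := by
    have h1 : ∀ α, G2 α * (starRingEnd ℂ) (Q α) =
        ∑ N ∈ S, (starRingEnd ℂ) (c N) * (G2 α * e (-(α * N))) := by
      intro α
      rw [hQ]
      dsimp only
      rw [map_sum, Finset.mul_sum]
      refine Finset.sum_congr rfl fun N _ => ?_
      rw [map_mul, conj_e]
      ring
    simp only [h1]
    rw [integral_finsetSum]
    · simp only [integral_const_mul]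
      push_cast
      refine Finset.sum_congr rfl fun N _ => ?_
      rw [← Complex.conj_mul']
    · intro N _
      exact (hmul hiG2 (cont_eN N) (C := 1) (fun α => (norm_e _).le)).const_mul _
  have i1 : Integrable (fun α => 2 * τ ^ 2 * ‖U P v p α‖ ^ 2) mu :=
    integR (continuous_const.mul ((cont_U P v p).norm.pow 2))
  have i2 : Integrable (fun α => exc J r K' α) mu := exc_integ J r K'
  have i3 : Integrable (fun α => ‖Q α‖ ^ 2 / 2) mu := integR ((hcQ.norm.pow 2).div_const _)
  have i12 : Integrable (fun α => 2 * τ ^ 2 * ‖U P v p α‖ ^ 2 + exc J r K' α) mu := i1.add i2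
  have hfin : ∑ N ∈ S, ‖c N‖ ^ 2 ≤
      ∫ α, (2 * τ ^ 2 * ‖U P v p α‖ ^ 2 + exc J r K' α + ‖Q α‖ ^ 2 / 2) ∂mu := by
    have h1 : ‖∫ α, G2 α * (starRingEnd ℂ) (Q α) ∂mu‖ ≤
        ∫ α, (2 * τ ^ 2 * ‖U P v p α‖ ^ 2 + exc J r K' α + ‖Q α‖ ^ 2 / 2) ∂mu := by
      refine norm_integral_le_of_norm_le ((i1.add i2).add i3) ?_
      filter_upwards [mem_half] with α hα
      rw [norm_mul, RCLike.norm_conj]
      have hE0 := exc_nonneg (J := J) (r := r) hK'0 α
      have hq0 := norm_nonneg (Q α)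
      have hU0 := norm_nonneg (U P v p α)
      have hg : ‖G2 α‖ ^ 2 ≤ 4 * τ ^ 2 * ‖U P v p α‖ ^ 2 + 2 * exc J r K' α := by
        rw [hG2]
        by_cases hm : α ∈ Set.Icc (-η) η
        · rw [Set.indicator_of_notMem (by simpa using hm), norm_zero]
          have h9 : 0 ≤ 4 * τ ^ 2 * ‖U P v p α‖ ^ 2 := by positivity
          linarith
        · rw [Set.indicator_of_mem (by simpa using hm), hG]
          dsimp only
          have hs : η < |α| := by
            by_contra hcon
            exact hm (abs_le.mp (not_lt.mp hcon))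
          have hD := Dl_two hW α
          have hD0 := norm_nonneg (Dl W α)
          rw [norm_mul, norm_mul]
          rcases hT α hs.le hα with hT' | ⟨hx, hu⟩
          · have hT2 : ‖U L a w α‖ ≤ τ := hT'
            have h5 : ‖U P v p α‖ * ‖U L a w α‖ * ‖Dl W α‖ ≤ ‖U P v p α‖ * τ * 2 := by gcongr
            have h6 : (‖U P v p α‖ * ‖U L a w α‖ * ‖Dl W α‖) ^ 2 ≤ (‖U P v p α‖ * τ * 2) ^ 2 :=
              pow_le_pow_left₀ (by positivity) h5 2
            have h7 : (‖U P v p α‖ * τ * 2) ^ 2 = 4 * τ ^ 2 * ‖U P v p α‖ ^ 2 := by ring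
            linarith
          · have hu2 : ‖U P v p α‖ ≤ υ := hu
            have hV := norm_U L a w hw α
            have h5 : ‖U P v p α‖ * ‖U L a w α‖ * ‖Dl W α‖ ≤ υ * B * 2 := by gcongr
            have h6 : (‖U P v p α‖ * ‖U L a w α‖ * ‖Dl W α‖) ^ 2 ≤ (υ * B * 2) ^ 2 :=
              pow_le_pow_left₀ (by positivity) h5 2
            have h7 : (υ * B * 2) ^ 2 = 2 * K' := by rw [hK']; ring
            have h8 := exc_le hK'0 hx
            have h9 : 0 ≤ 4 * τ ^ 2 * ‖U P v p α‖ ^ 2 := by positivity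
            linarith
      nlinarith [sq_nonneg (‖G2 α‖ - ‖Q α‖)]
    rw [hdual, Complex.norm_real, Real.norm_eq_abs,
      abs_of_nonneg (Finset.sum_nonneg fun _ _ => sq_nonneg _)] at h1
    exact h1
  rw [integral_add i12 i3, integral_add i1 i2, integral_const_mul, U_sq, integral_div,
    hQ2] at hfin
  have h1 : (S.card : ℝ) * ρ ^ 2 ≤ ∑ N ∈ S, ‖c N‖ ^ 2 := by
    rw [← nsmul_eq_mul, ← Finset.sum_const]
    refine Finset.sum_le_sum fun N hN => ?_
    have := hlow N hN
    gcongr
  have h2 := exc_int (J := J) hr hK'0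
  have h3 : 2 * r * J.card * K' = 4 * r * J.card * (υ * B) ^ 2 := by rw [hK']; ring
  linarith

end Pool.Agent.N712.PD
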