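import Pool.Agent.N91.LC.Stm

/-!
# The window lemma (`S_WINDOW` of project LC)
-/

set_option autoImplicit false

namespace Pool.Agent.N712.LCW

open Real Pool.Agent.N91.LC

lemma exp_le_quad {z : ℝ} (h : |z| ≤ 1) : exp z ≤ 1 + z + z ^ 2 := by
  have h1 := Real.abs_exp_sub_one_sub_id_le (x := z) h
  have := (abs_le.1 h1).2
  linarith

/-- the lower bound of the time to an exit -/
theorem th_low {g δ t : ℝ} (hg : GG * exp (-t) ≤ g) (hδ : 0 ≤ δ) (hδ' : δ ≤ 2e-4)
    (ht : 0 ≤ t) (ht' : t ≤ 1e-4) : RR + 1.48 * δ - 0.01 * t ≤ th g (ell + δ) := by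
  have hE1 := exp_2ell_lo
  have hE2 := exp_2ell_hi
  set E := exp (2 * ell) with hE
  set w := exp (2 * δ) with hw
  have hw1 : 1 + 2 * δ ≤ w := by
    have := Real.add_one_le_exp (2 * δ)
    linarith
  have hw2 : w ≤ 1 + 2.001 * δ := by
    have h := exp_upper (x := 2 * δ) (by linarith) (by norm_num at *; linarith)
    have h2 : (2 * δ) ^ 2 ≤ 0.001 * δ := by norm_num at *; nlinarith
    linarith
  -- g² ≥ 1/2 - t
  have hg0 : 0 ≤ g := le_trans (mul_nonneg GG_pos.le (exp_pos _).le) hg
  have hg2 : 1 / 2 - t ≤ g ^ 2 := by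
    have h1 : (GG * exp (-t)) ^ 2 ≤ g ^ 2 :=
      pow_le_pow_left₀ (mul_nonneg GG_pos.le (exp_pos _).le) hg 2
    have h2 : (GG * exp (-t)) ^ 2 = 1 / 2 * exp (-(2 * t)) := by
      rw [mul_pow, GG_sq, ← exp_nat_mul]
      congr 2
      push_cast
      ring
    have h3 : 1 - 2 * t ≤ exp (-(2 * t)) := by
      have := Real.add_one_le_exp (-(2 * t))
      linarith
    rw [h2] at h1
    linarith
  have hth := exp_th (g := g) (D := ell + δ) (by linarith [ell_pos])
  have hEw : exp (2 * (ell + δ)) = E * w := by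
    rw [hE, hw, ← exp_add]
    congr 1
    ring
  rw [hEw] at hth
  have hEw1 : 0 ≤ E * w - 1 := by nlinarith
  have hlow : E * w + (1 / 2 - t) * (E * w - 1) ≤ exp (2 * th g (ell + δ)) := by
    rw [hth]
    have := mul_le_mul_of_nonneg_right hg2 hEw1
    linarith
  set z := 2.96 * δ - 0.02 * t with hz
  have hz1 : |z| ≤ 1 := by
    rw [abs_le]
    constructor <;> · rw [hz]; norm_num at *; linarith
  have hexpz := exp_le_quad hz1
  have hR := exp_RR
  have hz2 : z ^ 2 ≤ 0.00176 * δ + 0.0000001 * t := by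
    rw [hz]
    have h1 : (2.96 * δ) * (2.96 * δ) ≤ 0.00176 * δ := by norm_num at *; nlinarith
    have h2 : (0.02 * t) * (0.02 * t) ≤ 0.0000001 * t := by norm_num at *; nlinarith
    have h3 : 0 ≤ δ * t := mul_nonneg hδ ht
    nlinarith
  have hup : exp (2 * (RR + 1.48 * δ - 0.01 * t)) ≤ (3 / 2 * E - 1 / 2) * (1 + z + z ^ 2) := by
    have e : 2 * (RR + 1.48 * δ - 0.01 * t) = 2 * RR + z := by rw [hz]; ring
    rw [e, exp_add, hR]
    exact mul_le_mul_of_nonneg_left hexpz (by linarith)
  have hfin : (3 / 2 * E - 1 / 2) * (1 + z + z ^ 2) ≤ E * w + (1 / 2 - t) * (E * w - 1) := by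
    have a1 : (3 / 2 * E - 1 / 2) * z ≤ 3.04974 * δ - 0.020606 * t := by
      rw [hz]
      have b1 : (3 / 2 * E - 1 / 2) * (2.96 * δ) ≤ 1.0303135 * (2.96 * δ) :=
        mul_le_mul_of_nonneg_right (by linarith) (by linarith)
      have b2 : 1.0303 * (0.02 * t) ≤ (3 / 2 * E - 1 / 2) * (0.02 * t) :=
        mul_le_mul_of_nonneg_right (by linarith) (by linarith)
      linarith
    have a2 : (3 / 2 * E - 1 / 2) * z ^ 2 ≤ 1.04 * (0.00176 * δ + 0.0000001 * t) := by
      have b1 : (3 / 2 * E - 1 / 2) * z ^ 2 ≤ 1.04 * z ^ 2 :=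
        mul_le_mul_of_nonneg_right (by linarith) (sq_nonneg z)
      linarith
    have a3 : 3.0606 * δ ≤ 3 / 2 * (E * (w - 1)) := by
      have b1 : 1.0202 * (2 * δ) ≤ E * (w - 1) :=
        mul_le_mul hE1 (by linarith) (by linarith) (by linarith)
      linarith
    have a4 : t * (E * (w - 1)) ≤ 0.00021 * δ := by
      have b1 : E * (w - 1) ≤ 1.03 * (2.001 * δ) :=
        mul_le_mul (by linarith) (by linarith) (by linarith) (by norm_num)
      have b2 : t * (E * (w - 1)) ≤ 1e-4 * (1.03 * (2.001 * δ)) :=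
        mul_le_mul ht' b1 (mul_nonneg (by linarith) (by linarith)) (by norm_num)
      norm_num at *
      linarith
    have a5 : t * (E - 1) ≤ 0.020209 * t := by
      have : t * (E - 1) ≤ t * 0.020209 := mul_le_mul_of_nonneg_left (by linarith) ht
      linarith
    have e : E * w + (1 / 2 - t) * (E * w - 1)
        = (3 / 2 * E - 1 / 2) + 3 / 2 * (E * (w - 1)) - t * (E * (w - 1)) - t * (E - 1) := by ring
    rw [e]
    have e2 : (3 / 2 * E - 1 / 2) * (1 + z + z ^ 2)
        = (3 / 2 * E - 1 / 2) + (3 / 2 * E - 1 / 2) * z + (3 / 2 * E - 1 / 2) * z ^ 2 := by ring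
    rw [e2]
    linarith
  have h := exp_le_exp.1 (hup.trans (hfin.trans hlow))
  linarith

/-- points near the start of the Christian are on a high level -/
theorem g_low {x : X} {t : ℝ} (ht : 0 ≤ t) (ht' : t ≤ 1e-4) (h : dist y0 x ≤ t) :
    GG * exp (-t) ≤ x.P.g := by
  have key : ∀ c, t < c → c ≤ 2e-4 → GG * exp (-c) ≤ x.P.g := by
    intro c hc hc'
    have hadm : AdmX y0 x c := AdmX.of_dist_lt (lt_of_le_of_lt h hc)
    have hy : y0.P = ⟨0, 0, GG⟩ := rfl
    have hyg : y0.P.g = GG := rfl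
    rcases hadm with ⟨h1, -, -, -⟩ | hadm
    · exfalso
      have h2 := congrArg Pt.b h1
      rw [hy] at h2
      have h3 : (0 : ℝ) = ell := h2
      linarith [ell_pos]
    have hcc : c - hh y0.n y0.s - hh x.n x.s ≤ c := by
      linarith [hh_nonneg y0.n y0.hs, hh_nonneg x.n x.hs]
    have hadm := hadm.mono y0.ok.g0 x.ok.g0 hcc
    rcases hadm with hadm | ⟨q, q', c1, c2, hq, hq', h1, h2, h3⟩
    · rcases hadm with hs | hs | hs
      · have h1 := hs.1
        rw [hyg] at h1
        have h2 : exp (-c) * exp c = 1 := by rw [← exp_add]; simp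
        calc GG * exp (-c) ≤ (exp c * x.P.g) * exp (-c) :=
              mul_le_mul_of_nonneg_right h1 (exp_pos _).le
          _ = (exp (-c) * exp c) * x.P.g := by ring
          _ = x.P.g := by rw [h2, one_mul]
      · exfalso
        unfold Hub at hs
        have h1 : 0.1 ≤ log (A y0.P.g) := by
          rw [hyg, Real.le_log_iff_exp_le (A_pos _)]
          have h2 := exp_upper (x := 0.1) (by norm_num) (by norm_num)
          have h3 := A_sq GG
          rw [GG_sq] at h3
          have h4 := A_pos GG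
          nlinarith
        have h2 := log_A_nonneg x.P.g
        have h3 := sd_nonneg y0.P x.P
        norm_num at *
        linarith
      · exfalso
        unfold Exit at hs
        have h1 : EE y0.P = RR := by
          unfold EE
          rw [hy]
          show th GG (ell - 0) = RR
          rw [sub_zero, RR_eq]
        have h2 := EE_nonneg x.ok
        have h3 := abs_nonneg (y0.P.v - x.P.v)
        have h4 := RR_lo
        norm_num at hc' h4
        linarith
    · exfalso
      have h4 := h1.sd_le y0.ok (gam_ok hq.1 hq.2)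
      have h5 := h2.nonneg (gam_ok hq'.1 hq'.2) x.ok
      have h6 := abs_nonneg (q - q')
      have h7 : binf - q / 3 ≤ sd y0.P (gam q) := by
        unfold sd
        rw [hy]
        show binf - q / 3 ≤ |0 - (binf - q / 3)| + |(0 : ℝ) - 0|
        have := neg_abs_le (0 - (binf - q / 3))
        have h8 := abs_nonneg ((0 : ℝ) - 0)
        linarith
      have h8 := binf_lo
      have h9 := hq.2
      unfold q0 at h9
      norm_num at hc' h8 h9
      linarith
  -- the limit
  apply le_of_forall_pos_le_add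
  intro ε hε
  set c := t + min ε 1e-4 with hc
  have hm : 0 < min ε 1e-4 := lt_min hε (by norm_num)
  have hm1 : min ε 1e-4 ≤ ε := min_le_left _ _
  have hm2 : min ε (1e-4 : ℝ) ≤ 1e-4 := min_le_right _ _
  have hc2 : c ≤ 2e-4 := by
    have e : (2e-4 : ℝ) = 1e-4 + 1e-4 := by norm_num
    rw [e, hc]
    exact add_le_add ht' hm2
  have h1 := key c (by linarith) hc2
  have h2 : exp (-t) - exp (-c) ≤ c - t := by
    have e : exp (-c) = exp (-t) * exp (-(c - t)) := by
      rw [← exp_add]
      congr 1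
      ring
    rw [e]
    have h3 : exp (-t) ≤ 1 := by
      rw [← exp_zero]
      exact exp_le_exp.2 (by linarith)
    have h4 : 1 - (c - t) ≤ exp (-(c - t)) := by
      have := Real.add_one_le_exp (-(c - t))
      linarith
    have h5 := exp_pos (-t)
    have h6 : 0 ≤ c - t := by linarith
    nlinarith
  have h3 : GG * (exp (-t) - exp (-c)) ≤ 1 * (c - t) := by
    have h4 : exp (-c) ≤ exp (-t) := exp_le_exp.2 (by linarith)
    exact mul_le_mul (by linarith [GG_lt]) h2 (by linarith) (by norm_num)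
  linarith

/-- the lower bound of `Fn` off the tooth -/
theorem Fn_low {x : X} {t : ℝ} (ht : 0 ≤ t) (ht' : t ≤ 1e-4) (h : dist y0 x ≤ t) (m : ℕ)
    (hv : x.P.v ≠ pp m) {δ : ℝ} (hδ : 0 ≤ δ) (hδ' : δ ≤ 2e-4)
    (hδx : δ ≤ x.P.b + |x.P.v - pp m|) : RR + 1.48 * δ - 0.01 * t ≤ Fn m x.P := by
  have hg := g_low ht ht' h
  have h1 := th_low hg hδ hδ' ht ht'
  have hD : Dn m x.P = ell + x.P.b + |x.P.v - pp m| := by
    unfold Dn
    rw [if_neg hv]
  unfold Fn
  apply le_min
  · rw [hD]
    refine h1.trans (th_mono_right (by linarith [ell_pos]) (by linarith))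
  · have := RR_hi
    unfold ell
    norm_num at *
    linarith

/-- a tooth whose value is small is near -/
theorem near_tooth {x : X} {t : ℝ} (ht : 0 < t) (ht' : t ≤ 1e-4) (h : dist y0 x ≤ t) (m : ℕ)
    (hv : x.P.v ≠ pp m) (hF : Fn m x.P ≤ RR + pp m - 0.28 * t) :
    1.48 * |x.P.v - pp m| ≤ pp m - 0.27 * t := by
  have hb := x.ok.b0
  have ha := abs_nonneg (x.P.v - pp m)
  have hp := pp_le m
  unfold p0 at hp
  rcases le_or_gt (x.P.b + |x.P.v - pp m|) 2e-4 with h1 | h1
  · have := Fn_low ht.le ht' h m hv (by linarith) h1 le_rfl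
    linarith
  · exfalso
    have := Fn_low ht.le ht' h m hv (δ := 2e-4) (by norm_num) le_rfl h1.le
    norm_num at *
    linarith

theorem pp_lt {m m' : ℕ} (h : m < m') : pp m' ≤ pp m / 3 := by
  have h1 : m + 1 ≤ m' := h
  have h2 : pp m' ≤ pp (m + 1) := by
    unfold pp
    apply mul_le_mul_of_nonneg_left _ p0_pos.le
    exact pow_le_pow_of_le_one (by norm_num) (by norm_num) h1
  rw [pp_succ] at h2
  exact h2

/-- at most one tooth -/
theorem unique_tooth {x : X} {t : ℝ} (ht : 0 < t) (ht' : t ≤ 1e-4) (h : dist y0 x ≤ t) {m m' : ℕ}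
    (hmm : m < m') (hF : Fn m x.P ≤ RR + pp m - 0.28 * t)
    (hF' : Fn m' x.P ≤ RR + pp m' - 0.28 * t) (hpt : pp m ≤ 1.5 * t) : False := by
  have hp := pp_pos m
  have hp' := pp_pos m'
  have hlt := pp_lt hmm
  by_cases hv : x.P.v = pp m
  · have hv' : x.P.v ≠ pp m' := by
      rw [hv]
      intro h1
      linarith
    have h1 := near_tooth ht ht' h m' hv' hF'
    rw [hv, abs_of_nonneg (by linarith)] at h1
    linarith
  · have h1 := near_tooth ht ht' h m hv hF
    by_cases hv' : x.P.v = pp m'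
    · rw [hv', abs_of_nonpos (by linarith)] at h1
      linarith
    · have h2 := near_tooth ht ht' h m' hv' hF'
      have h3 : pp m - pp m' ≤ |x.P.v - pp m| + |x.P.v - pp m'| := by
        have e1 := neg_abs_le (x.P.v - pp m)
        have e2 := le_abs_self (x.P.v - pp m')
        linarith
      linarith

theorem t_WINDOW (hFNP : S_FNP) : S_WINDOW := by
  intro f hf h0
  by_contra hcon
  push Not at hcon
  have hq0 : q0 = 1e-4 := by unfold q0; norm_num
  have hdist : ∀ t, 0 ≤ t → dist y0 (f t) ≤ t := by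
    intro t ht
    have h1 := hf 0 t le_rfl ht
    rw [zero_sub, abs_neg, abs_of_nonneg ht] at h1
    have h2 := dist_triangle y0 (f 0) (f t)
    rw [dist_comm y0 (f 0), h0] at h2
    linarith
  -- the start
  have hstart : ∀ m, RR + 1.48 * pp m ≤ Fn m (f 0).P := by
    intro m
    have hd := hdist 0 le_rfl
    have hv0 : (f 0).P.v = 0 := by
      have h1 := X.v_lip y0 (f 0)
      have h2 : |y0.P.v - (f 0).P.v| ≤ 0 := h1.trans hd
      have h3 : y0.P.v - (f 0).P.v = 0 := abs_nonpos_iff.1 h2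
      have h4 : y0.P.v = 0 := rfl
      linarith
    have hpm := pp_pos m
    have hpl := pp_le m
    unfold p0 at hpl
    have hv : (f 0).P.v ≠ pp m := by
      rw [hv0]
      exact hpm.ne
    have h5 := Fn_low (x := f 0) le_rfl (by norm_num) hd m hv (δ := pp m) hpm.le
      (by norm_num at *; linarith) (by
        rw [hv0, zero_sub, abs_neg, abs_of_pos hpm]
        linarith [(f 0).ok.b0])
    linarith
  have hsmall : ∀ t, 0 < t → t ≤ 1e-4 → ∀ m, Fn m (f t).P ≤ RR + pp m - 0.28 * t →
      pp m ≤ 1.5 * t := by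
    intro t ht ht' m hm
    have h1 := hFNP m f hf 0 t le_rfl ht.le
    rw [zero_sub, abs_neg, abs_of_pos ht] at h1
    have h2 := (abs_le.1 h1).2
    have h3 := hstart m
    linarith
  have huniq : ∀ t, 0 < t → t ≤ 1e-4 → ∀ m m', Fn m (f t).P ≤ RR + pp m - 0.28 * t →
      Fn m' (f t).P ≤ RR + pp m' - 0.28 * t → m = m' := by
    intro t ht ht' m m' h1 h2
    rcases lt_trichotomy m m' with h | h | h
    · exact (unique_tooth ht ht' (hdist t ht.le) h h1 h2 (hsmall t ht ht' m h1)).elim
    · exact h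
    · exact (unique_tooth ht ht' (hdist t ht.le) h h2 h1 (hsmall t ht ht' m' h2)).elim
  -- the sequence of times
  set τ : ℕ → ℝ := fun j => 1e-4 * 0.996 ^ j with hτ
  have hτ0 : ∀ j, 0 < τ j := fun j => by rw [hτ]; positivity
  have hτ1 : ∀ j, τ j ≤ 1e-4 := by
    intro j
    rw [hτ]
    have : (0.996 : ℝ) ^ j ≤ 1 := pow_le_one₀ (by norm_num) (by norm_num)
    dsimp only
    norm_num at *
    linarith
  have hτs : ∀ j, τ (j + 1) = 0.996 * τ j := by
    intro j
    rw [hτ]
    dsimp only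
    rw [pow_succ]
    ring
  have hex : ∀ j, ∃ m, Fn m (f (τ j)).P ≤ RR + pp m - 0.29 * τ j := by
    intro j
    obtain ⟨m, hm⟩ := hcon (τ j) (hτ0 j) (by rw [hq0]; exact hτ1 j)
    exact ⟨m, hm⟩
  choose M hM using hex
  have hMs : ∀ j, M (j + 1) = M j := by
    intro j
    apply huniq (τ (j + 1)) (hτ0 _) (hτ1 _)
    · have := hM (j + 1)
      linarith [hτ0 (j + 1)]
    · have h1 := hFNP (M j) f hf (τ (j + 1)) (τ j) (hτ0 _).le (hτ0 _).le
      have h2 : |τ (j + 1) - τ j| = 0.004 * τ j := by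
        rw [hτs, abs_of_nonpos (by linarith [hτ0 j])]
        ring
      rw [h2] at h1
      have h3 := (abs_le.1 h1).2
      have h4 := hM j
      have h5 := hτs j
      have h6 := hτ0 j
      linarith
  have hM0 : ∀ j, M j = M 0 := by
    intro j
    induction j with
    | zero => rfl
    | succ j ih => rw [hMs, ih]
  have hpp : ∀ j, pp (M 0) ≤ 1.5 * τ j := by
    intro j
    rw [← hM0 j]
    apply hsmall (τ j) (hτ0 j) (hτ1 j)
    have := hM j
    linarith [hτ0 j]
  obtain ⟨j, hj⟩ := exists_pow_lt_of_lt_one (pp_pos (M 0)) (by norm_num : (0.996 : ℝ) < 1)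
  have h1 := hpp j
  have h2 : 1.5 * τ j ≤ 0.996 ^ j := by
    rw [hτ]
    dsimp only
    have : (0 : ℝ) < 0.996 ^ j := by positivity
    have e : (1.5 : ℝ) * (1e-4 * 0.996 ^ j) = 0.00015 * 0.996 ^ j := by ring
    rw [e]
    linarith
  linarith

end Pool.Agent.N712.LCW
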