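import Pool.Agent.N979.P1.DatB

/-!
# PROJECT P1, leaf CERT for the second data set (helper712, for helper979; adapted from helper664)
-/

set_option autoImplicit false

namespace Pool.Agent.N712.P1B_CERT

open Pool.Agent.N979.P1 Pool.Agent.N979.P1.B

lemma pi_le : 2 / Real.pi ≤ ((RrQ : ℚ) : ℝ) := by
  have h1 := Real.pi_gt_d4
  have h2 : ((RrQ : ℚ) : ℝ) = 6367 / 10000 := by
    unfold RrQ
    norm_num
  rw [h2, div_le_iff₀ Real.pi_pos]
  linarith

lemma ka_le : |datQ.ka| ≤ 2 := by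
  decide +kernel

lemma rho_pos : ∀ j, 0 < datQ.ρ j := by
  decide +kernel

lemma t_pos : ∀ j, 0 < datQ.t j := by
  decide +kernel

lemma rho_lt : ∀ a b, a < b → datQ.ρ a < datQ.ρ b := by
  decide +kernel

lemma t_lt : ∀ a b, a < b → datQ.t a < datQ.t b := by
  decide +kernel

lemma rho_ltR : ∀ j, datQ.ρ j < RrQ := by
  decide +kernel

theorem main (h : ∀ J, Pool.Agent.N979.P1.B.S_CK J) : Pool.Agent.N979.P1.B.S_CERT := by
  refine ⟨pi_le, ?_⟩
  constructor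
  · show |((datQ.ka : ℚ) : ℝ)| ≤ 2
    exact_mod_cast ka_le
  · intro j
    show (0 : ℝ) < ((datQ.ρ j : ℚ) : ℝ)
    exact_mod_cast rho_pos j
  · intro j
    show (0 : ℝ) < ((datQ.t j : ℚ) : ℝ)
    exact_mod_cast t_pos j
  · intro a b hab
    show ((datQ.ρ a : ℚ) : ℝ) < ((datQ.ρ b : ℚ) : ℝ)
    exact_mod_cast rho_lt a b hab
  · intro a b hab
    show ((datQ.t a : ℚ) : ℝ) < ((datQ.t b : ℚ) : ℝ)
    exact_mod_cast t_lt a b hab
  · intro j
    show ((datQ.ρ j : ℚ) : ℝ) < ((RrQ : ℚ) : ℝ)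
    exact_mod_cast rho_ltR j
  · intro J
    exact ⟨_, (h J).1⟩
  · intro J r h1 h2
    have hr : r = ((datQ.rhi RrQ J : ℚ) : ℝ) := by
      by_cases hJ : J.val + 1 < 33
      · rw [h1 hJ]
        show ((datQ.ρ ⟨J.val + 1, hJ⟩ : ℚ) : ℝ) = _
        unfold DatQ.rhi
        rw [dif_pos hJ]
      · rw [h2 (by omega)]
        unfold DatQ.rhi
        rw [dif_neg hJ]
    rw [hr]
    exact ⟨_, (h J).2⟩

end Pool.Agent.N712.P1B_CERT
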